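import Pool.Agent.TH173.SD.Ruzsa

/-! # Averaging over affine maps, and arcs -/

set_option autoImplicit false
open Finset

namespace Pool.Agent.TH173.SD

theorem first_moment {P : ℕ} [Fact P.Prime] (u : ZMod P) (I : Finset (ZMod P)) :
    ((univ : Finset (ZMod P × ZMod P)).filter fun q => q.1 ≠ 0 ∧ q.1 * u + q.2 ∈ I).card =
      (P - 1) * I.card := by
  classical
  have h1 : (((univ : Finset (ZMod P)).erase 0) ×ˢ I).card = (P - 1) * I.card := by
    rw [card_product, card_erase_of_mem (mem_univ _), card_univ, ZMod.card]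
  rw [← h1]
  apply card_nbij' (fun q => (q.1, q.1 * u + q.2)) (fun q => (q.1, q.2 - q.1 * u))
  · intro q hq
    rw [mem_coe, mem_filter] at hq
    rw [mem_coe, mem_product, mem_erase]
    exact ⟨⟨hq.2.1, mem_univ _⟩, hq.2.2⟩
  · intro q hq
    rw [mem_coe, mem_product, mem_erase] at hq
    rw [mem_coe, mem_filter]
    refine ⟨mem_univ _, hq.1.1, ?_⟩
    simp only
    have : q.1 * u + (q.2 - q.1 * u) = q.2 := by ring
    rw [this]
    exact hq.2
  · intro q _
    simp
  · intro q _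
    simp

theorem second_moment {P : ℕ} [Fact P.Prime] {a b : ZMod P} (hab : a ≠ b)
    (I : Finset (ZMod P)) :
    ((univ : Finset (ZMod P × ZMod P)).filter fun q => q.1 ≠ 0 ∧
      q.1 * a + q.2 ∈ I ∧ q.1 * b + q.2 ∈ I).card ≤ I.card * I.card - I.card := by
  classical
  rw [← offDiag_card]
  apply card_le_card_of_injOn fun q => (q.1 * a + q.2, q.1 * b + q.2)
  · intro q hq
    rw [mem_coe, mem_filter] at hq
    rw [mem_coe, mem_offDiag]
    refine ⟨hq.2.2.1, hq.2.2.2, ?_⟩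
    intro h
    have : q.1 * (a - b) = 0 := by linear_combination h
    rcases mul_eq_zero.1 this with h' | h'
    · exact hq.2.1 h'
    · exact hab (sub_eq_zero.1 h')
  · intro q _ q' _ h
    simp only [Prod.mk.injEq] at h
    obtain ⟨h1, h2⟩ := h
    have h3 : (q.1 - q'.1) * (a - b) = 0 := by linear_combination h1 - h2
    have h4 : q.1 = q'.1 := by
      rcases mul_eq_zero.1 h3 with h' | h'
      · exact sub_eq_zero.1 h'
      · exact absurd (sub_eq_zero.1 h') hab
    have h5 : q.2 = q'.2 := by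
      rw [h4] at h1
      exact add_left_cancel h1
    exact Prod.ext h4 h5

/-- **Averaging.** -/
theorem average {P : ℕ} [Fact P.Prime] {ι : Type} [DecidableEq ι] (U : Finset (ZMod P))
    (S : Finset ι) (I : ι → Finset (ZMod P)) (l : ℕ) (hI : ∀ i ∈ S, (I i).card = l)
    (hlP : l ≤ P) (α β : ℝ) (hβ : 0 ≤ β)
    (hαβ : ∀ x : ℕ, α * x - β * (x * x - x) ≤ if 1 ≤ x then 1 else 0) :
    ∃ m c : ZMod P, m ≠ 0 ∧
      (S.card : ℝ) * (α * (U.card * l / P) - β * (U.card * l / P) ^ 2) ≤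
        ((S.filter fun i => ∃ u ∈ U, m * u + c ∈ I i).card : ℝ) := by
  classical
  have hP : P.Prime := Fact.out
  have hP2 := hP.two_le
  set Λ := (univ : Finset (ZMod P × ZMod P)).filter fun q => q.1 ≠ 0 with hΛ
  have hΛc : Λ.card = (P - 1) * P := by
    have h1 := first_moment (P := P) 0 univ
    simp only [mem_univ, and_true] at h1
    rw [card_univ, ZMod.card] at h1
    exact h1
  set X : ZMod P × ZMod P → ι → ℕ := fun q i => (U.filter fun u => q.1 * u + q.2 ∈ I i).card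
    with hX
  -- first moment
  have m1 : ∀ i ∈ S, ∑ q ∈ Λ, X q i = U.card * ((P - 1) * l) := by
    intro i hi
    simp only [hX, card_filter]
    rw [sum_comm, ← smul_eq_mul, ← sum_const]
    apply sum_congr rfl
    intro u _
    rw [← card_filter, ← hI i hi, ← first_moment u (I i), hΛ, filter_filter]
  -- second moment
  have m2 : ∀ i ∈ S, ∑ q ∈ Λ, (X q i * X q i - X q i) ≤
      (U.card * U.card - U.card) * (l * l - l) := by
    intro i hi
    have h1 : ∀ q ∈ Λ, X q i * X q i - X q i =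
        ∑ ab ∈ U.offDiag, if q.1 * ab.1 + q.2 ∈ I i ∧ q.1 * ab.2 + q.2 ∈ I i then 1 else 0 := by
      intro q _
      rw [← card_filter, hX]
      simp only
      rw [← offDiag_card]
      congr 1
      ext ab
      simp only [mem_offDiag, mem_filter]
      tauto
    rw [sum_congr rfl h1, sum_comm, ← offDiag_card U, ← smul_eq_mul, ← sum_const]
    apply sum_le_sum
    intro ab hab
    rw [← card_filter, ← hI i hi, hΛ, filter_filter]
    exact second_moment (mem_offDiag.1 hab).2.2 (I i)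
  -- the count
  have hcnt : ∀ q : ZMod P × ZMod P,
      ((S.filter fun i => ∃ u ∈ U, q.1 * u + q.2 ∈ I i).card : ℝ) =
        ∑ i ∈ S, if 1 ≤ X q i then (1 : ℝ) else 0 := by
    intro q
    rw [card_filter]
    push_cast
    apply sum_congr rfl
    intro i _
    have : (∃ u ∈ U, q.1 * u + q.2 ∈ I i) ↔ 1 ≤ X q i := by
      rw [hX]
      simp only
      rw [Nat.one_le_iff_ne_zero, ← Nat.pos_iff_ne_zero, card_pos]
      constructor
      · rintro ⟨u, hu, hui⟩
        exact ⟨u, mem_filter.2 ⟨hu, hui⟩⟩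
      · rintro ⟨u, hu⟩
        exact ⟨u, (mem_filter.1 hu).1, (mem_filter.1 hu).2⟩
    simp only [this]
  have hPr : (2 : ℝ) ≤ (P : ℝ) := by exact_mod_cast hP2
  set y : ℝ := U.card * l / P with hy
  -- lower bound for each arc
  have key : ∀ i ∈ S, ((Λ.card : ℝ) * (α * y - β * y ^ 2)) ≤
      ∑ q ∈ Λ, if 1 ≤ X q i then (1 : ℝ) else 0 := by
    intro i hi
    have h1 : ∑ q ∈ Λ, (α * (X q i : ℝ) - β * ((X q i : ℝ) * X q i - X q i)) ≤
        ∑ q ∈ Λ, if 1 ≤ X q i then (1 : ℝ) else 0 := sum_le_sum fun q _ => hαβ (X q i)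
    refine le_trans ?_ h1
    rw [sum_sub_distrib, ← mul_sum, ← mul_sum]
    have h2 : ∑ q ∈ Λ, (X q i : ℝ) = U.card * ((P - 1) * l) := by
      have := m1 i hi
      have h3 : ((∑ q ∈ Λ, X q i : ℕ) : ℝ) = ((U.card * ((P - 1) * l) : ℕ) : ℝ) := by
        rw [this]
      push_cast [Nat.cast_sub (show 1 ≤ P by omega)] at h3
      exact h3
    have sq : ∀ x : ℕ, ((x * x - x : ℕ) : ℝ) = (x : ℝ) * x - x := by
      intro x
      rw [Nat.cast_sub (Nat.le_mul_self x)]
      push_cast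
      ring
    have h4 : ∑ q ∈ Λ, ((X q i : ℝ) * X q i - X q i) ≤
        ((U.card : ℝ) * U.card - U.card) * ((l : ℝ) * l - l) := by
      have h5 : ((∑ q ∈ Λ, (X q i * X q i - X q i) : ℕ) : ℝ) ≤
          (((U.card * U.card - U.card) * (l * l - l) : ℕ) : ℝ) := by exact_mod_cast m2 i hi
      rw [Nat.cast_sum, Nat.cast_mul, sq, sq] at h5
      simp only [sq] at h5
      exact h5
    rw [h2]
    have h6 : (Λ.card : ℝ) = ((P : ℝ) - 1) * P := by
      rw [hΛc]
      push_cast [Nat.cast_sub (show 1 ≤ P by omega)]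
      ring
    have h7 : α * ((U.card : ℝ) * (((P : ℝ) - 1) * l)) = (Λ.card : ℝ) * (α * y) := by
      rw [h6, hy]
      field_simp
    have h8 : ((U.card : ℝ) * U.card - U.card) * ((l : ℝ) * l - l) ≤ (Λ.card : ℝ) * y ^ 2 := by
      rw [h6, hy]
      have e1 : ((P : ℝ) - 1) * P * ((U.card : ℝ) * l / P) ^ 2 =
          ((U.card : ℝ) * U.card) * ((l : ℝ) * l * ((P : ℝ) - 1) / P) := by
        field_simp
      rw [e1]
      have e2 : (0 : ℝ) ≤ (U.card : ℝ) * U.card - U.card := by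
        rw [← sq]; exact Nat.cast_nonneg _
      have e3 : (l : ℝ) * l - l ≤ (l : ℝ) * l * ((P : ℝ) - 1) / P := by
        rw [le_div_iff₀ (by linarith)]
        have e4 : (l : ℝ) ≤ (P : ℝ) := by exact_mod_cast hlP
        have e5 : (0 : ℝ) ≤ (l : ℝ) := Nat.cast_nonneg _
        nlinarith
      have e6 : (0 : ℝ) ≤ (l : ℝ) * l - l := by
        rw [← sq]; exact Nat.cast_nonneg _
      calc ((U.card : ℝ) * U.card - U.card) * ((l : ℝ) * l - l) ≤
          ((U.card : ℝ) * U.card) * ((l : ℝ) * l - l) :=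
            mul_le_mul_of_nonneg_right (by
              have : (0 : ℝ) ≤ (U.card : ℝ) := Nat.cast_nonneg _
              linarith) e6
        _ ≤ _ := mul_le_mul_of_nonneg_left e3 (by positivity)
    rw [h7]
    have h9 : β * ∑ q ∈ Λ, ((X q i : ℝ) * X q i - X q i) ≤ β * ((Λ.card : ℝ) * y ^ 2) :=
      mul_le_mul_of_nonneg_left (h4.trans h8) hβ
    linarith
  -- choose a good map
  have hne : Λ.Nonempty := by
    rw [← card_pos, hΛc]
    exact Nat.mul_pos (by omega) (by omega)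
  obtain ⟨q, hq, hq2⟩ : ∃ q ∈ Λ, (S.card : ℝ) * (α * y - β * y ^ 2) ≤
      ∑ i ∈ S, if 1 ≤ X q i then (1 : ℝ) else 0 := by
    apply exists_le_of_sum_le hne
    rw [sum_const, nsmul_eq_mul, sum_comm]
    calc (Λ.card : ℝ) * ((S.card : ℝ) * (α * y - β * y ^ 2)) =
        ∑ i ∈ S, ((Λ.card : ℝ) * (α * y - β * y ^ 2)) := by
          rw [sum_const, nsmul_eq_mul]
          ring
      _ ≤ _ := sum_le_sum key
  refine ⟨q.1, q.2, (mem_filter.1 hq).2, ?_⟩
  rw [hcnt q]
  exact hq2

theorem small {L z w : ℤ} (hL : 0 < L) (h : 2 * L * z = w) (h1 : -(2 * L) < w)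
    (h2 : w < 2 * L) : z = 0 := by
  by_contra hz
  rcases lt_or_gt_of_ne hz with h3 | h3
  · have : z ≤ -1 := by omega
    nlinarith
  · have : 1 ≤ z := by omega
    nlinarith

/-- **Arcs.** -/
theorem arcs {P M L l : ℕ} (h1 : 2 * L * M ≤ P) (h2 : P < 2 * L * M + 2 * M) (h3 : l + M ≤ L)
    {i1 i2 i3 i4 r1 r2 r3 r4 : ℕ} (a1 : i1 < M) (a2 : i2 < M) (a3 : i3 < M) (a4 : i4 < M)
    (b1 : r1 < l) (b2 : r2 < l) (b3 : r3 < l) (b4 : r4 < l)
    (h : ((2 * L * i1 + r1 : ℕ) : ZMod P) + ((2 * L * i2 + r2 : ℕ) : ZMod P) =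
      ((2 * L * i3 + r3 : ℕ) : ZMod P) + ((2 * L * i4 + r4 : ℕ) : ZMod P)) :
    ((i1 + i2 : ℕ) : ZMod M) = ((i3 + i4 : ℕ) : ZMod M) := by
  have hlt : ∀ i r : ℕ, i < M → r < l → 2 * L * i + r < P := by
    intro i r hi hr
    have : 2 * L * (i + 1) ≤ 2 * L * M := Nat.mul_le_mul_left _ hi
    have e : 2 * L * (i + 1) = 2 * L * i + 2 * L := by ring
    omega
  have c1 := hlt i1 r1 a1 b1
  have c2 := hlt i2 r2 a2 b2
  have c3 := hlt i3 r3 a3 b3
  have c4 := hlt i4 r4 a4 b4
  rw [← Nat.cast_add, ← Nat.cast_add, ZMod.natCast_eq_natCast_iff'] at h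
  set x := 2 * L * i1 + r1 + (2 * L * i2 + r2) with hx
  set y := 2 * L * i3 + r3 + (2 * L * i4 + r4) with hy
  have hcase : x = y ∨ x = y + P ∨ y = x + P := by
    have e1 := Nat.div_add_mod x P
    have e2 := Nat.div_add_mod y P
    have d1 : x / P < 2 := Nat.div_lt_of_lt_mul (by omega)
    have d2 : y / P < 2 := Nat.div_lt_of_lt_mul (by omega)
    rw [h] at e1
    have f1 : x / P = 0 ∨ x / P = 1 := Nat.le_one_iff_eq_zero_or_eq_one.1 (Nat.lt_succ_iff.1 d1)
    have f2 : y / P = 0 ∨ y / P = 1 := Nat.le_one_iff_eq_zero_or_eq_one.1 (Nat.lt_succ_iff.1 d2)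
    rcases f1 with f1 | f1 <;> rcases f2 with f2 | f2 <;> rw [f1] at e1 <;> rw [f2] at e2 <;>
      omega
  have hL : (0 : ℤ) < L := by omega
  rcases hcase with hc | hc | hc
  · have h5 : (2 * (L : ℤ)) * ((i1 : ℤ) + i2 - i3 - i4) = (r3 : ℤ) + r4 - r1 - r2 := by
      have : (x : ℤ) = y := by exact_mod_cast hc
      rw [hx, hy] at this
      push_cast at this
      linarith
    have h6 := small hL h5 (by omega) (by omega)
    congr 1
    omega
  · have h5 : (2 * (L : ℤ)) * ((i1 : ℤ) + i2 - i3 - i4 - M) =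
        (r3 : ℤ) + r4 - r1 - r2 + ((P : ℤ) - 2 * L * M) := by
      have : (x : ℤ) = y + P := by exact_mod_cast hc
      rw [hx, hy] at this
      push_cast at this
      linarith
    have g1 : (2 : ℤ) * L * M ≤ P := by exact_mod_cast h1
    have g2 : (P : ℤ) < 2 * L * M + 2 * M := by exact_mod_cast h2
    have h6 := small hL h5 (by omega) (by omega)
    have h7 : i1 + i2 = i3 + i4 + M := by omega
    rw [h7]
    push_cast
    simp
  · have h5 : (2 * (L : ℤ)) * ((i3 : ℤ) + i4 - i1 - i2 - M) =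
        (r1 : ℤ) + r2 - r3 - r4 + ((P : ℤ) - 2 * L * M) := by
      have : (y : ℤ) = x + P := by exact_mod_cast hc
      rw [hx, hy] at this
      push_cast at this
      linarith
    have g1 : (2 : ℤ) * L * M ≤ P := by exact_mod_cast h1
    have g2 : (P : ℤ) < 2 * L * M + 2 * M := by exact_mod_cast h2
    have h6 := small hL h5 (by omega) (by omega)
    have h7 : i3 + i4 = i1 + i2 + M := by omega
    rw [h7]
    push_cast
    simp

end Pool.Agent.TH173.SD
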