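import Pool.Agent.TH173.SD.Main

/-! # Sidon subsets of size about `√(N/8)` -/

set_option autoImplicit false
open Finset

namespace Pool.Agent.TH173.SD

theorem ab1 (x : ℕ) : (1 : ℝ) * x - (1 / 2) * (x * x - x) ≤ if 1 ≤ x then 1 else 0 := by
  rcases Nat.eq_zero_or_pos x with h | h
  · subst h; simp
  · rw [if_pos (show 1 ≤ x from h)]
    have : (0 : ℝ) ≤ ((x : ℝ) - 1) * ((x : ℝ) - 2) := by
      rcases Nat.lt_or_ge x 2 with h2 | h2
      · have : x = 1 := by omega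
        subst this; norm_num
      · have h1 : (2 : ℝ) ≤ x := by exact_mod_cast h2
        exact mul_nonneg (by linarith) (by linarith)
    nlinarith

theorem ab2 (x : ℕ) : (2 / 3 : ℝ) * x - (1 / 6) * (x * x - x) ≤ if 1 ≤ x then 1 else 0 := by
  rcases Nat.eq_zero_or_pos x with h | h
  · subst h; simp
  · rw [if_pos (show 1 ≤ x from h)]
    have : (0 : ℝ) ≤ ((x : ℝ) - 2) * ((x : ℝ) - 3) := by
      rcases Nat.lt_or_ge x 3 with h2 | h2
      · rcases Nat.lt_or_ge x 2 with h3 | h3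
        · have : x = 1 := by omega
          subst this; norm_num
        · have : x = 2 := by omega
          subst this; norm_num
      · have h1 : (3 : ℝ) ≤ x := by exact_mod_cast h2
        exact mul_nonneg (by linarith) (by linarith)
    nlinarith

theorem core {ε : ℝ} (hε : 0 < ε) (hε2 : ε ≤ 1 / 2) {k : ℕ} (hk : 100 ≤ k)
    (hkε : 8 / ε + 1 ≤ (k : ℝ)) (A : Finset ℝ) (h1 : (8 + ε) * (k : ℝ) ^ 2 ≤ (A.card : ℝ))
    (h2 : (A.card : ℝ) ≤ (8 + ε) * (k : ℝ) ^ 2 + 1) :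
    ∃ T : Finset ℝ, T ⊆ A ∧ T.card = k ∧ Sidon T := by
  obtain ⟨p, hp, hxp, hp2x⟩ := Nat.exists_prime_lt_and_le_two_mul ((8 * k + 4) / 5) (by omega)
  obtain ⟨q, rfl⟩ : ∃ q, p = q + 1 := ⟨p - 1, by omega⟩
  have hq1 : 8 * k ≤ 5 * q := by omega
  have hq2 : 5 * q + 5 ≤ 16 * k + 8 := by omega
  have kr : (100 : ℝ) ≤ k := by exact_mod_cast hk
  have q1 : 8 * (k : ℝ) ≤ 5 * q := by exact_mod_cast hq1
  have q2 : 5 * (q : ℝ) + 5 ≤ 16 * k + 8 := by exact_mod_cast hq2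
  have hqpos : (0 : ℝ) < q := by linarith
  have hDpos : (0 : ℝ) < 2 * ((q + 1) * q) := by positivity
  have key : ∀ α β : ℝ, 0 ≤ α → 0 ≤ β →
      (∀ x : ℕ, α * x - β * (x * x - x) ≤ if 1 ≤ x then 1 else 0) →
      (k : ℝ) ≤ q * (α * ((A.card : ℝ) / (2 * ((q + 1) * q))) -
        β * ((A.card : ℝ) / (2 * ((q + 1) * q))) ^ 2) →
      ∃ T : Finset ℝ, T ⊆ A ∧ T.card = k ∧ Sidon T := by
    intro α β hα hβ hαβ h
    apply select A (q + 1) hp α β hα hβ hαβ k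
    have e1 : q + 1 - 1 = q := rfl
    rw [e1]
    push_cast
    exact h
  set N : ℝ := (A.card : ℝ) with hN
  set y : ℝ := N / (2 * (((q : ℝ) + 1) * q)) with hy
  have hyN : N = y * (2 * ((q + 1) * q)) := by rw [hy]; field_simp
  have hk2 : 0 ≤ (k : ℝ) ^ 2 := by positivity
  have hN8 : 8 * (k : ℝ) ^ 2 ≤ N := by nlinarith
  have hN85 : N ≤ 8.5 * (k : ℝ) ^ 2 + 1 := by nlinarith
  have hylo : (0.619 : ℝ) ^ 2 ≤ y := by
    rw [hy, le_div_iff₀ hDpos]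
    have h3 : ((q : ℝ) + 1) * q ≤ ((16 * k + 8) / 5) * ((16 * k + 3) / 5) :=
      mul_le_mul (by linarith) (by linarith) hqpos.le (by linarith)
    nlinarith
  have hyhi : y ≤ (1.3 : ℝ) ^ 2 := by
    rw [hy, div_le_iff₀ hDpos]
    have h3 : (8 * (k : ℝ) / 5) * (8 * k / 5) ≤ ((q : ℝ) + 1) * q :=
      mul_le_mul (by linarith) (by linarith) (by linarith) (by linarith)
    nlinarith
  have hy0 : 0 ≤ y := le_trans (by norm_num) hylo
  set w : ℝ := √y with hw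
  have hw2 : w ^ 2 = y := Real.sq_sqrt hy0
  have hw0 : 0 ≤ w := Real.sqrt_nonneg _
  have hwlo : 0.619 ≤ w := by
    by_contra h
    push Not at h
    have : w ^ 2 < 0.619 ^ 2 := pow_lt_pow_left₀ h hw0 (by norm_num)
    linarith
  have hwhi : w ≤ 1.3 := by
    by_contra h
    push Not at h
    have : (1.3 : ℝ) ^ 2 < w ^ 2 := pow_lt_pow_left₀ h (by norm_num) (by norm_num)
    linarith
  -- size
  have hsize : (k : ℝ) ≤ q * (w / 2) := by
    have h3 : 8 * ((q : ℝ) + 1) ≤ (8 + ε) * q := by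
      have h4 : 8 / ε ≤ q := by linarith
      rw [div_le_iff₀ hε] at h4
      linarith
    have h4 : 8 * ((q : ℝ) + 1) * (k : ℝ) ^ 2 ≤ q * N := by
      calc 8 * ((q : ℝ) + 1) * (k : ℝ) ^ 2 ≤ (8 + ε) * q * (k : ℝ) ^ 2 :=
            mul_le_mul_of_nonneg_right h3 hk2
        _ = q * ((8 + ε) * (k : ℝ) ^ 2) := by ring
        _ ≤ q * N := mul_le_mul_of_nonneg_left h1 hqpos.le
    have h5 : 8 * ((q : ℝ) + 1) * (k : ℝ) ^ 2 ≤ 8 * ((q : ℝ) + 1) * ((q * (w / 2)) ^ 2) := by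
      have h6 : q * N = 8 * ((q : ℝ) + 1) * ((q * (w / 2)) ^ 2) := by
        have h7 : N = w ^ 2 * (2 * ((q + 1) * q)) := by
          rw [hw2]
          exact hyN
        rw [h7]
        ring
      exact h4.trans h6.le
    have h6 : (k : ℝ) ^ 2 ≤ (q * (w / 2)) ^ 2 := le_of_mul_le_mul_left h5 (by positivity)
    have h7 : 0 ≤ (q : ℝ) * (w / 2) := mul_nonneg hqpos.le (by linarith)
    exact (pow_le_pow_iff_left₀ (by linarith) h7 (by norm_num)).1 h6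
  by_cases hw1 : w ≤ 1
  · refine key 1 (1 / 2) (by norm_num) (by norm_num) ab1 ?_
    refine hsize.trans (mul_le_mul_of_nonneg_left ?_ hqpos.le)
    rw [← hw2]
    have : 0 ≤ w * ((1 - w) * (w ^ 2 + w - 1)) := by
      apply mul_nonneg hw0 (mul_nonneg (by linarith) (by nlinarith))
    nlinarith
  · push Not at hw1
    refine key (2 / 3) (1 / 6) (by norm_num) (by norm_num) ab2 ?_
    refine hsize.trans (mul_le_mul_of_nonneg_left ?_ hqpos.le)
    rw [← hw2]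
    have : 0 ≤ w * ((w - 1) * (3 - w - w ^ 2)) := by
      apply mul_nonneg hw0 (mul_nonneg (by linarith) (by nlinarith))
    nlinarith

theorem main8 (ε : ℝ) (hε : 0 < ε) : ∃ k₀ : ℕ, ∀ k : ℕ, k₀ ≤ k → ∀ A : Finset ℝ,
    (8 + ε) * (k : ℝ) ^ 2 ≤ (A.card : ℝ) →
    ∃ T : Finset ℝ, T ⊆ A ∧ T.card = k ∧ Sidon T := by
  have hε' : 0 < min ε (1 / 2) := lt_min hε (by norm_num)
  refine ⟨max 100 ⌈8 / min ε (1 / 2) + 1⌉₊, fun k hk A hA => ?_⟩
  have hk1 : 100 ≤ k := (le_max_left _ _).trans hk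
  have hk2 : 8 / min ε (1 / 2) + 1 ≤ (k : ℝ) :=
    (Nat.le_ceil _).trans (by exact_mod_cast (le_max_right _ _).trans hk)
  have hle : (8 + min ε (1 / 2)) * (k : ℝ) ^ 2 ≤ (A.card : ℝ) := by
    refine le_trans (mul_le_mul_of_nonneg_right ?_ (by positivity)) hA
    linarith [min_le_left ε (1 / 2)]
  have hc : ⌈(8 + min ε (1 / 2)) * (k : ℝ) ^ 2⌉₊ ≤ A.card := Nat.ceil_le.2 hle
  obtain ⟨A', hA', hA'c⟩ := exists_subset_card_eq hc
  obtain ⟨T, hT, hTc, hTs⟩ := core hε' (min_le_right _ _) hk1 hk2 A'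
    (by rw [hA'c]; exact Nat.le_ceil _) (by
      rw [hA'c]
      exact (Nat.ceil_lt_add_one (by positivity)).le)
  exact ⟨T, hT.trans hA', hTc, hTs⟩

/-- infinitely often `27/4` -/
theorem main27 (ε : ℝ) (hε : 0 < ε) (k₁ : ℕ) : ∃ k : ℕ, k₁ ≤ k ∧ ∀ A : Finset ℝ,
    (27 / 4 + ε) * (k : ℝ) ^ 2 ≤ (A.card : ℝ) →
    ∃ T : Finset ℝ, T ⊆ A ∧ T.card = k ∧ Sidon T := by
  obtain ⟨c, hc⟩ := exists_nat_gt (30 / ε)
  obtain ⟨p, hpge, hp⟩ := Nat.exists_infinite_primes (3 * (k₁ + c + 4) + 10)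
  obtain ⟨q, rfl⟩ : ∃ q, p = q + 1 := ⟨p - 1, by omega⟩
  refine ⟨4 * q / 9, by omega, fun A hA => ?_⟩
  set k := 4 * q / 9 with hk
  have hk1 : 9 * k ≤ 4 * q := by omega
  have hk2 : 4 * q ≤ 9 * k + 8 := by omega
  have hk3 : c + 1 ≤ k := by omega
  have kr1 : 9 * (k : ℝ) ≤ 4 * q := by exact_mod_cast hk1
  have kr2 : 4 * (q : ℝ) ≤ 9 * k + 8 := by exact_mod_cast hk2
  have kr3 : (c : ℝ) + 1 ≤ k := by exact_mod_cast hk3
  have hkpos : (0 : ℝ) < k := by have : (0 : ℝ) ≤ c := Nat.cast_nonneg _; linarith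
  have hqpos : (0 : ℝ) < q := by linarith
  have hεk : 30 ≤ ε * k := by
    have : 30 / ε ≤ k := by linarith
    rw [div_le_iff₀ hε] at this
    linarith
  -- the number of points to use
  set N : ℕ := ⌈(4 / 3 : ℝ) * ((q + 1) * q)⌉₊ with hN
  have hN1 : (4 / 3 : ℝ) * ((q + 1) * q) ≤ N := Nat.le_ceil _
  have hN2 : (N : ℝ) ≤ (4 / 3 : ℝ) * ((q + 1) * q) + 1 := (Nat.ceil_lt_add_one (by positivity)).le
  have hNA : N ≤ A.card := by
    apply Nat.ceil_le.2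
    refine le_trans ?_ hA
    have h3 : ((q : ℝ) + 1) * q ≤ ((9 * k + 12) / 4) * ((9 * k + 8) / 4) :=
      mul_le_mul (by linarith) (by linarith) hqpos.le (by linarith)
    have h4 : 30 * (k : ℝ) ≤ ε * k * k := mul_le_mul_of_nonneg_right hεk hkpos.le
    have h5 : (1 : ℝ) ≤ k := by have : (0 : ℝ) ≤ c := Nat.cast_nonneg _; linarith
    nlinarith
  obtain ⟨A', hA', hA'c⟩ := exists_subset_card_eq hNA
  have hDpos : (0 : ℝ) < 2 * ((q + 1) * q) := by positivity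
  obtain ⟨T, hT, hTc, hTs⟩ := select A' (q + 1) hp 1 (1 / 2) (by norm_num) (by norm_num) ab1 k (by
    have e1 : q + 1 - 1 = q := rfl
    rw [e1, hA'c]
    push_cast
    set y : ℝ := (N : ℝ) / (2 * (((q : ℝ) + 1) * q)) with hy
    have hy1 : 2 / 3 ≤ y := by
      rw [hy, le_div_iff₀ hDpos]
      linarith
    have hq9 : (1 : ℝ) ≤ q := by
      have : (0 : ℝ) ≤ c := Nat.cast_nonneg _
      linarith
    have hy2 : y ≤ 1 := by
      rw [hy, div_le_iff₀ hDpos]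
      have : (1 : ℝ) ≤ (2 / 3) * ((q + 1) * q) := by nlinarith
      linarith
    have hy3 : 4 / 9 ≤ 1 * y - 1 / 2 * y ^ 2 := by nlinarith
    calc (k : ℝ) ≤ q * (4 / 9) := by linarith
      _ ≤ _ := mul_le_mul_of_nonneg_left hy3 hqpos.le)
  exact ⟨T, hT.trans hA', hTc, hTs⟩

end Pool.Agent.TH173.SD
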