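import Pool.Agent.TH173.SD.Avg

/-! # Sidon subsets of finite sets of reals -/

set_option autoImplicit false
open Finset

namespace Pool.Agent.TH173.SD

/-- the arc with number `i` -/
def arc (P L l i : ℕ) : Finset (ZMod P) := (range l).image fun r => ((2 * L * i + r : ℕ) : ZMod P)

theorem card_arc {P M L l : ℕ} (h1 : 2 * L * M ≤ P) (h3 : l + M ≤ L) {i : ℕ} (hi : i < M) :
    (arc P L l i).card = l := by
  unfold arc
  rw [card_image_of_injOn, card_range]
  intro r hr r' hr' h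
  rw [mem_coe, mem_range] at hr hr'
  simp only at h
  rw [ZMod.natCast_eq_natCast_iff'] at h
  have : 2 * L * (i + 1) ≤ 2 * L * M := Nat.mul_le_mul_left _ hi
  have e : 2 * L * (i + 1) = 2 * L * i + 2 * L := by ring
  rw [Nat.mod_eq_of_lt (by omega), Nat.mod_eq_of_lt (by omega)] at h
  omega

theorem arc_disj {P M L l : ℕ} (h1 : 2 * L * M ≤ P) (h3 : l + M ≤ L) {i j : ℕ} (hi : i < M)
    (hj : j < M) {x : ZMod P} (hx : x ∈ arc P L l i) (hx' : x ∈ arc P L l j) : i = j := by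
  unfold arc at hx hx'
  obtain ⟨r, hr, rfl⟩ := mem_image.1 hx
  obtain ⟨r', hr', h⟩ := mem_image.1 hx'
  rw [mem_range] at hr hr'
  rw [ZMod.natCast_eq_natCast_iff'] at h
  have e1 : 2 * L * (i + 1) ≤ 2 * L * M := Nat.mul_le_mul_left _ hi
  have e2 : 2 * L * (i + 1) = 2 * L * i + 2 * L := by ring
  have e3 : 2 * L * (j + 1) ≤ 2 * L * M := Nat.mul_le_mul_left _ hj
  have e4 : 2 * L * (j + 1) = 2 * L * j + 2 * L := by ring
  rw [Nat.mod_eq_of_lt (by omega), Nat.mod_eq_of_lt (by omega)] at h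
  rcases Nat.lt_trichotomy i j with h5 | h5 | h5
  · exfalso
    have : 2 * L * (i + 1) ≤ 2 * L * j := Nat.mul_le_mul_left _ h5
    omega
  · exact h5
  · exfalso
    have : 2 * L * (j + 1) ≤ 2 * L * i := Nat.mul_le_mul_left _ h5
    omega

/-- **Selection.** -/
theorem select (A : Finset ℝ) (p : ℕ) (hp : p.Prime) (α β : ℝ) (hα : 0 ≤ α) (hβ : 0 ≤ β)
    (hαβ : ∀ x : ℕ, α * x - β * (x * x - x) ≤ if 1 ≤ x then 1 else 0) (k : ℕ)
    (hk : (k : ℝ) ≤ ((p - 1 : ℕ) : ℝ) * (α * ((A.card : ℝ) / (2 * (p * (p - 1) : ℕ))) -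
      β * ((A.card : ℝ) / (2 * (p * (p - 1) : ℕ))) ^ 2)) :
    ∃ T : Finset ℝ, T ⊆ A ∧ T.card = k ∧ Sidon T := by
  classical
  obtain ⟨g, hg1, hg2⟩ := toZMod A
  have hruz := ruzsa p hp
  generalize hM : p * (p - 1) = M at hk hruz
  obtain ⟨S, hS, hSid⟩ := hruz
  have hp1 : 0 < p - 1 := by have := hp.two_le; omega
  have hMpos : 0 < M := by rw [← hM]; exact Nat.mul_pos hp.pos hp1
  have hMne : NeZero M := ⟨by omega⟩
  set N := A.card with hN
  -- a large prime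
  set G : ℕ := ∑ a ∈ A, (g a).natAbs with hG
  obtain ⟨c0, hc0⟩ := exists_nat_gt (((p - 1 : ℕ) : ℝ) * α * N * (M + 1))
  obtain ⟨P, hPge, hPp⟩ := Nat.exists_infinite_primes (2 * G + c0 + 4 * M * (M + 2) + 2)
  have hfact : Fact P.Prime := ⟨hPp⟩
  have hP0 : 0 < P := hPp.pos
  set L := P / (2 * M) with hL
  have hdm : 2 * M * L + P % (2 * M) = P := Nat.div_add_mod P (2 * M)
  have hmod : P % (2 * M) < 2 * M := Nat.mod_lt _ (by omega)
  have h1 : 2 * L * M ≤ P := by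
    have : 2 * L * M = 2 * M * L := by ring
    omega
  have h2 : P < 2 * L * M + 2 * M := by
    have : 2 * L * M = 2 * M * L := by ring
    omega
  have hML : 2 * M ≤ L := by
    rw [hL, Nat.le_div_iff_mul_le (by omega)]
    have : 2 * M * (2 * M) ≤ 4 * M * (M + 2) := by nlinarith
    omega
  set l := L - M with hl
  have h3 : l + M ≤ L := by omega
  have hlP : l ≤ P := by
    have : L ≤ P := Nat.div_le_self _ _
    omega
  -- the copy of `A`
  set φ : ℝ → ZMod P := fun a => ((g a : ℤ) : ZMod P) with hφ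
  have hgG : ∀ a ∈ A, (g a).natAbs ≤ G := fun a ha =>
    single_le_sum (f := fun a => (g a).natAbs) (fun _ _ => Nat.zero_le _) ha
  have hφinj : ∀ a ∈ A, ∀ b ∈ A, φ a = φ b → a = b := by
    intro a ha b hb h
    apply hg1 a ha b hb
    have h4 := hgG a ha
    have h5 := hgG b hb
    have h6 : ((g a - g b : ℤ) : ZMod P) = 0 := by
      push_cast
      exact sub_eq_zero.2 h
    rw [ZMod.intCast_zmod_eq_zero_iff_dvd] at h6
    have h7 : g a - g b = 0 := by
      apply Int.eq_zero_of_abs_lt_dvd h6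
      have : |g a - g b| ≤ |g a| + |g b| := abs_sub _ _
      rw [Int.abs_eq_natAbs (g a), Int.abs_eq_natAbs (g b)] at this
      omega
    omega
  have hUc : (A.image φ).card = N := by
    rw [card_image_of_injOn]
    intro a ha b hb h
    exact hφinj a ha b hb h
  obtain ⟨m, c, hm, hcount⟩ := average (A.image φ) S (fun i => arc P L l i.val) l
    (fun i _ => card_arc h1 h3 (ZMod.val_lt i)) hlP α β hβ hαβ
  set W := S.filter fun i => ∃ u ∈ A.image φ, m * u + c ∈ arc P L l i.val with hW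
  -- enough arcs
  have hWk : k ≤ W.card := by
    rw [hUc, hS] at hcount
    have hMr : (0 : ℝ) < (M : ℝ) := by exact_mod_cast hMpos
    have hPr : (0 : ℝ) < (P : ℝ) := by exact_mod_cast hP0
    have hNr : (0 : ℝ) ≤ (N : ℝ) := Nat.cast_nonneg _
    have hpr : (0 : ℝ) ≤ ((p - 1 : ℕ) : ℝ) := Nat.cast_nonneg _
    set y : ℝ := (N : ℝ) / (2 * (M : ℕ)) with hy
    set y' : ℝ := (N : ℝ) * l / P with hy'
    have hlcast : (l : ℝ) = (L : ℝ) - M := by
      rw [hl, Nat.cast_sub (by omega)]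
    have u1 : (l : ℝ) * (2 * M) ≤ P := by
      have : l * (2 * M) ≤ P := by
        calc l * (2 * M) ≤ L * (2 * M) := Nat.mul_le_mul_right _ (by omega)
          _ = 2 * L * M := by ring
          _ ≤ P := h1
      exact_mod_cast this
    have u2 : (P : ℝ) ≤ (l : ℝ) * (2 * M) + 2 * M * (M + 1) := by
      have h4 : (P : ℝ) < 2 * (L : ℝ) * M + 2 * M := by exact_mod_cast h2
      rw [hlcast]
      nlinarith
    have v1 : y' ≤ y := by
      rw [hy, hy', div_le_div_iff₀ hPr (by positivity)]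
      calc (N : ℝ) * l * (2 * (M : ℝ)) = N * ((l : ℝ) * (2 * M)) := by ring
        _ ≤ N * P := mul_le_mul_of_nonneg_left u1 hNr
    have v0 : 0 ≤ y' := by rw [hy']; positivity
    have v2 : y - (N : ℝ) * (M + 1) / P ≤ y' := by
      rw [hy, hy', sub_le_iff_le_add, ← add_div, div_le_div_iff₀ (by positivity) hPr]
      have : (N : ℝ) * P ≤ N * ((l : ℝ) * (2 * M) + 2 * M * (M + 1)) :=
        mul_le_mul_of_nonneg_left u2 hNr
      linarith
    have v3 : α * y - β * y ^ 2 - α * ((N : ℝ) * (M + 1) / P) ≤ α * y' - β * y' ^ 2 := by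
      have w1 : α * (y - (N : ℝ) * (M + 1) / P) ≤ α * y' := mul_le_mul_of_nonneg_left v2 hα
      have w2 : β * y' ^ 2 ≤ β * y ^ 2 :=
        mul_le_mul_of_nonneg_left (pow_le_pow_left₀ v0 v1 2) hβ
      linarith
    have v4 : ((p - 1 : ℕ) : ℝ) * (α * ((N : ℝ) * (M + 1) / P)) < 1 := by
      have w1 : (c0 : ℝ) < P := by
        have : c0 < P := by omega
        exact_mod_cast this
      have w2 : ((p - 1 : ℕ) : ℝ) * (α * ((N : ℝ) * (M + 1) / P)) =
          (((p - 1 : ℕ) : ℝ) * α * N * (M + 1)) / P := by ring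
      rw [w2, div_lt_one hPr]
      linarith
    have v5 : ((p - 1 : ℕ) : ℝ) * (α * y - β * y ^ 2 - α * ((N : ℝ) * (M + 1) / P)) ≤
        ((p - 1 : ℕ) : ℝ) * (α * y' - β * y' ^ 2) := mul_le_mul_of_nonneg_left v3 hpr
    have v6 : (k : ℝ) - 1 < (W.card : ℝ) := by
      have : ((p - 1 : ℕ) : ℝ) * (α * y - β * y ^ 2 - α * ((N : ℝ) * (M + 1) / P)) =
          ((p - 1 : ℕ) : ℝ) * (α * y - β * y ^ 2) -
          ((p - 1 : ℕ) : ℝ) * (α * ((N : ℝ) * (M + 1) / P)) := by ring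
      linarith
    have v7 : (k : ℝ) < (W.card : ℝ) + 1 := by linarith
    have v8 : k < W.card + 1 := by exact_mod_cast v7
    omega
  -- the representatives
  have hrep : ∀ i : ZMod M, ∃ a : ℝ, i ∈ W → a ∈ A ∧ m * φ a + c ∈ arc P L l i.val := by
    intro i
    by_cases hi : i ∈ W
    · obtain ⟨u, hu, hui⟩ := (mem_filter.1 hi).2
      obtain ⟨a, ha, rfl⟩ := mem_image.1 hu
      exact ⟨a, fun _ => ⟨ha, hui⟩⟩
    · exact ⟨0, fun h => absurd h hi⟩
  choose a ha using hrep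
  have hainj : Set.InjOn a (W : Set (ZMod M)) := by
    intro i hi j hj h
    rw [mem_coe] at hi hj
    have h4 := (ha i hi).2
    have h5 := (ha j hj).2
    rw [← h] at h5
    exact ZMod.val_injective M (arc_disj h1 h3 (ZMod.val_lt i) (ZMod.val_lt j) h4 h5)
  obtain ⟨W', hW', hW'c⟩ := exists_subset_card_eq hWk
  refine ⟨W'.image a, ?_, ?_, ?_⟩
  · intro x hx
    obtain ⟨i, hi, rfl⟩ := mem_image.1 hx
    exact (ha i (hW' hi)).1
  · rw [card_image_of_injOn, hW'c]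
    exact hainj.mono (by exact_mod_cast hW')
  · intro x1 hx1 x2 hx2 x3 hx3 x4 hx4 h
    obtain ⟨i1, hi1, rfl⟩ := mem_image.1 hx1
    obtain ⟨i2, hi2, rfl⟩ := mem_image.1 hx2
    obtain ⟨i3, hi3, rfl⟩ := mem_image.1 hx3
    obtain ⟨i4, hi4, rfl⟩ := mem_image.1 hx4
    have k1 := ha i1 (hW' hi1)
    have k2 := ha i2 (hW' hi2)
    have k3 := ha i3 (hW' hi3)
    have k4 := ha i4 (hW' hi4)
    have h4 := hg2 _ k1.1 _ k2.1 _ k3.1 _ k4.1 h
    have h5 : φ (a i1) + φ (a i2) = φ (a i3) + φ (a i4) := by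
      simp only [hφ]
      rw [← Int.cast_add, ← Int.cast_add, h4]
    have h6 : (m * φ (a i1) + c) + (m * φ (a i2) + c) =
        (m * φ (a i3) + c) + (m * φ (a i4) + c) := by
      linear_combination m * h5
    obtain ⟨r1, hr1, e1⟩ := mem_image.1 k1.2
    obtain ⟨r2, hr2, e2⟩ := mem_image.1 k2.2
    obtain ⟨r3, hr3, e3⟩ := mem_image.1 k3.2
    obtain ⟨r4, hr4, e4⟩ := mem_image.1 k4.2
    rw [← e1, ← e2, ← e3, ← e4] at h6
    have h7 := arcs h1 h2 h3 (ZMod.val_lt i1) (ZMod.val_lt i2) (ZMod.val_lt i3) (ZMod.val_lt i4)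
      (mem_range.1 hr1) (mem_range.1 hr2) (mem_range.1 hr3) (mem_range.1 hr4) h6
    push_cast [ZMod.natCast_zmod_val] at h7
    have s1 := (mem_filter.1 (hW' hi1)).1
    have s2 := (mem_filter.1 (hW' hi2)).1
    have s3 := (mem_filter.1 (hW' hi3)).1
    have s4 := (mem_filter.1 (hW' hi4)).1
    rcases hSid i1 s1 i2 s2 i3 s3 i4 s4 h7 with ⟨rfl, rfl⟩ | ⟨rfl, rfl⟩
    · exact Or.inl ⟨rfl, rfl⟩
    · exact Or.inr ⟨rfl, rfl⟩

end Pool.Agent.TH173.SD
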