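import Mathlib

/-! # Ruzsa's Sidon set and the reduction to `ZMod P` -/

set_option autoImplicit false
open Finset

namespace Pool.Agent.TH173.SD

/-- Sidon sets -/
def Sidon {G : Type} [Add G] (S : Finset G) : Prop :=
  ∀ a ∈ S, ∀ b ∈ S, ∀ c ∈ S, ∀ d ∈ S, a + b = c + d → (a = c ∧ b = d) ∨ (a = d ∧ b = c)

theorem ruzsa (p : ℕ) (hp : p.Prime) :
    ∃ S : Finset (ZMod (p * (p - 1))), S.card = p - 1 ∧ Sidon S := by
  classical
  have : Fact p.Prime := ⟨hp⟩
  have hp1 : 0 < p - 1 := by have := hp.two_le; omega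
  have : NeZero (p - 1) := ⟨by omega⟩
  have hco : Nat.Coprime p (p - 1) := by
    rw [Nat.coprime_comm]
    have := Nat.coprime_self_add_right (m := p - 1) (n := 1)
    have h2 : p - 1 + 1 = p := by omega
    rw [h2] at this
    exact this.2 (Nat.coprime_one_right _)
  let e : ZMod (p * (p - 1)) ≃+* ZMod p × ZMod (p - 1) := ZMod.chineseRemainder hco
  obtain ⟨g, hg⟩ := IsCyclic.exists_generator (α := (ZMod p)ˣ)
  have hord : orderOf g = p - 1 := by
    rw [orderOf_eq_card_of_forall_mem_zpowers hg, Nat.card_eq_fintype_card, ZMod.card_units]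
  set f : ℕ → ZMod (p * (p - 1)) := fun i =>
    e.symm (((g ^ i : (ZMod p)ˣ) : ZMod p), ((i : ℕ) : ZMod (p - 1))) with hf
  have hpow : ∀ i < p - 1, ∀ j < p - 1, g ^ i = g ^ j → i = j := by
    intro i hi j hj h
    rw [pow_inj_mod, hord, Nat.mod_eq_of_lt hi, Nat.mod_eq_of_lt hj] at h
    exact h
  have hinj : Set.InjOn f (range (p - 1) : Finset ℕ) := by
    intro i hi j hj h
    rw [mem_coe, mem_range] at hi hj
    have h1 := e.symm.injective h
    rw [Prod.mk.injEq] at h1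
    exact hpow i hi j hj (Units.ext h1.1)
  refine ⟨(range (p - 1)).image f, ?_, ?_⟩
  · rw [card_image_of_injOn hinj, card_range]
  · intro a ha b hb c hc d hd h
    obtain ⟨i, hi, rfl⟩ := mem_image.1 ha
    obtain ⟨j, hj, rfl⟩ := mem_image.1 hb
    obtain ⟨k, hk, rfl⟩ := mem_image.1 hc
    obtain ⟨l, hl, rfl⟩ := mem_image.1 hd
    rw [mem_range] at hi hj hk hl
    have h1 := congrArg e h
    simp only [hf, map_add, RingEquiv.apply_symm_apply, Prod.mk_add_mk, Prod.mk.injEq] at h1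
    obtain ⟨h2, h3⟩ := h1
    have h4 : (i + j) % (p - 1) = (k + l) % (p - 1) := by
      have h5 : ((i + j : ℕ) : ZMod (p - 1)) = ((k + l : ℕ) : ZMod (p - 1)) := by
        push_cast
        exact h3
      exact (ZMod.natCast_eq_natCast_iff' _ _ _).1 h5
    have h6 : g ^ (i + j) = g ^ (k + l) := by
      rw [pow_inj_mod, hord]
      exact h4
    have h7 : ((g ^ i : (ZMod p)ˣ) : ZMod p) * ((g ^ j : (ZMod p)ˣ) : ZMod p) =
        ((g ^ k : (ZMod p)ˣ) : ZMod p) * ((g ^ l : (ZMod p)ˣ) : ZMod p) := by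
      rw [← Units.val_mul, ← Units.val_mul, ← pow_add, ← pow_add, h6]
    have h8 : (((g ^ i : (ZMod p)ˣ) : ZMod p) - ((g ^ k : (ZMod p)ˣ) : ZMod p)) *
        (((g ^ i : (ZMod p)ˣ) : ZMod p) - ((g ^ l : (ZMod p)ˣ) : ZMod p)) = 0 := by
      linear_combination ((g ^ i : (ZMod p)ˣ) : ZMod p) * h2 - h7
    rcases mul_eq_zero.1 h8 with h9 | h9
    · have h10 := hpow i hi k hk (Units.ext (sub_eq_zero.1 h9))
      subst h10
      exact Or.inl ⟨rfl, add_left_cancel h⟩
    · have h10 := hpow i hi l hl (Units.ext (sub_eq_zero.1 h9))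
      subst h10
      right
      refine ⟨rfl, ?_⟩
      rw [add_comm (f k)] at h
      exact add_left_cancel h

/-- finite sets of reals have copies in `ZMod P` -/
theorem toZMod (A : Finset ℝ) : ∃ g : ℝ → ℤ, (∀ a ∈ A, ∀ b ∈ A, g a = g b → a = b) ∧
    ∀ a ∈ A, ∀ b ∈ A, ∀ c ∈ A, ∀ d ∈ A, a + b = c + d → g a + g b = g c + g d := by
  classical
  let ι := {x : ℝ × ℝ // x ∈ (A ×ˢ A) ∧ x.1 ≠ x.2}
  have : Finite ι := by
    apply Finite.of_injective (fun x : ι => (⟨x.1, x.2.1⟩ : {x : ℝ × ℝ // x ∈ (A ×ˢ A)}))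
    intro x y h
    apply Subtype.ext
    exact congrArg (fun z : {x : ℝ × ℝ // x ∈ (A ×ˢ A)} => z.1) h
  obtain ⟨F, hF⟩ := Module.exists_dual_forall_apply_ne_zero (K := ℚ) (M := ℝ)
    (fun x : ι => x.1.1 - x.1.2) (fun x => sub_ne_zero.2 x.2.2)
  set D : ℕ := ∏ a ∈ A, (F a).den with hD
  have hD0 : D ≠ 0 := by
    rw [hD, prod_ne_zero_iff]
    intro a _
    exact (F a).den_ne_zero
  have hg : ∀ a : ℝ, ∃ z : ℤ, a ∈ A → (z : ℚ) = (D : ℚ) * F a := by
    intro a
    by_cases ha : a ∈ A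
    · obtain ⟨m, hm⟩ : (F a).den ∣ D := dvd_prod_of_mem _ ha
      refine ⟨m * (F a).num, fun _ => ?_⟩
      rw [hm]
      push_cast
      have h1 : ((F a).den : ℚ) * F a = (F a).num := by
        rw [mul_comm]
        exact Rat.mul_den_eq_num (F a)
      rw [mul_comm ((F a).den : ℚ), mul_assoc, h1]
    · exact ⟨0, fun h => absurd h ha⟩
  choose g hg using hg
  have hDq : (D : ℚ) ≠ 0 := by exact_mod_cast hD0
  refine ⟨g, ?_, ?_⟩
  · intro a ha b hb h
    by_contra hab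
    have h1 := hF ⟨(a, b), mem_product.2 ⟨ha, hb⟩, hab⟩
    apply h1
    simp only
    rw [map_sub, sub_eq_zero]
    apply mul_left_cancel₀ hDq
    rw [← hg a ha, ← hg b hb, h]
  · intro a ha b hb c hc d hd h
    have h1 : ((g a + g b : ℤ) : ℚ) = ((g c + g d : ℤ) : ℚ) := by
      push_cast
      rw [hg a ha, hg b hb, hg c hc, hg d hd, ← mul_add, ← mul_add, ← map_add, ← map_add, h]
    exact_mod_cast h1

end Pool.Agent.TH173.SD
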